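import Pool.Agent.N26.BM.Fin

/-!
# MP_58ffb3_an, Q1: weak-* convergence of the Bergman measures does not imply the logarithmic
asymptotics of the Bergman functions (full answer, negated form, already for `n = 1`)

`K` is the closed unit disc, `V_K = log⁺|z|`, and `ν = ∑_j 2^{-4^j} u_j`, where `u_j` is the uniform
probability measure on the `2^j`-th roots of unity.
-/

set_option autoImplicit false

namespace Pool.Agent.Results.MP_58ffb3_an.SparseRootsOfUnity

open MeasureTheory Metric Set Polynomial
open Pool.Agent.N26.BM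

/-- There are a compact set `K ⊆ ℂ` (the closed unit disc) whose extremal function `V_K` is
continuous (it is `log⁺|z|`), and a finite measure `ν` carried by `K` (even by the unit circle)
such that `‖·‖_{L²(ν)}` is a norm on the polynomials, such that the probability measures
`(k+1)⁻¹ B_k ν` converge weak-* to the equilibrium measure of `K`, but `(2k)⁻¹ log B_k` does not
converge to `V_K` locally uniformly.  Orthonormal bases exist, and the two assertions hold for the
Bergman functions computed with any of them. -/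
theorem result :
    IsCompact (closedBall (0:ℂ) 1) ∧
    Continuous (fun z : ℂ => Real.posLog ‖z‖) ∧
    (∀ z : ℂ, V (closedBall 0 1) z = ((Real.posLog ‖z‖ : ℝ) : EReal)) ∧
    ∃ ν μ : Measure ℂ,
      IsFiniteMeasure ν ∧ ν (closedBall 0 1)ᶜ = 0 ∧ ν (sphere 0 1)ᶜ = 0 ∧
      (∀ p : ℂ[X], p ≠ 0 → 0 < ∫ z, ‖p.eval z‖ ^ 2 ∂ν) ∧
      IsEquilibriumMeasure (closedBall 0 1) μ ∧
      (∃ e : ∀ k, Fin (k + 1) → ℂ[X], ∀ k, IsONB ν k (e k)) ∧
      ∀ e : ∀ k, Fin (k + 1) → ℂ[X], (∀ k, IsONB ν k (e k)) →
        WeakStar ν μ e ∧ ¬ LogAsymptotics (closedBall 0 1) e :=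
  ⟨isCompact_closedBall _ _, continuous_posLog_norm, fun z => congrFun V_disc z,
    nu, arc, inferInstance, nu_ball, nu_sphere, nu_pos, isEquilibriumMeasure_arc,
    ⟨fun k => (exists_onb nu_ball nu_pos k).choose,
      fun k => (exists_onb nu_ball nu_pos k).choose_spec⟩,
    fun _ he => ⟨weakStar he, not_log he⟩⟩

end Pool.Agent.Results.MP_58ffb3_an.SparseRootsOfUnity
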